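import Pool.Agent.helper32.NN.Spec

/-!
# Project NN (MP_3938c6_al), module FDI
-/

set_option autoImplicit false

open Submodule

namespace Pool.Agent.NN

universe u v

theorem FDI_pow_mem {K : Type u} {U : Type v} [Field K] [Ring U] [Algebra K U] {A : Submodule K U}
    (hA : A * A ≤ A) {a : U} (ha : a ∈ A) (i : ℕ) : a ^ (i + 1) ∈ A := by
  induction i with
  | zero => simpa using ha
  | succ i ih =>
    rw [pow_succ]
    exact hA (Submodule.mul_mem_mul ih ha)

/-- the span of the powers `a ^ (i + n + 1)` -/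
def FDI_S (K : Type u) {U : Type v} [Field K] [Ring U] [Algebra K U] (a : U) (n : ℕ) :
    Submodule K U := span K (Set.range fun i : ℕ => a ^ (i + n + 1))

theorem FDI_mul {K : Type u} {U : Type v} [Field K] [Ring U] [Algebra K U] (a : U) (n m : ℕ) :
    FDI_S K a n * FDI_S K a m ≤ FDI_S K a (n + m + 1) := by
  unfold FDI_S
  rw [Submodule.span_mul_span, Submodule.span_le]
  rintro _ ⟨_, ⟨i, rfl⟩, _, ⟨j, rfl⟩, rfl⟩
  refine Submodule.subset_span ⟨i + j, ?_⟩
  dsimp only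
  rw [← pow_add]
  congr 1
  ring

theorem FDI_mono {K : Type u} {U : Type v} [Field K] [Ring U] [Algebra K U] (a : U) (n m : ℕ) :
    FDI_S K a (n + m) ≤ FDI_S K a n := by
  unfold FDI_S
  rw [Submodule.span_le]
  rintro _ ⟨i, rfl⟩
  refine Submodule.subset_span ⟨i + m, ?_⟩
  dsimp only
  congr 1
  ring

theorem FDI_pow {K : Type u} {U : Type v} [Field K] [Ring U] [Algebra K U] (a : U) (n : ℕ) :
    (FDI_S K a 0) ^ (n + 1) ≤ FDI_S K a n := by
  induction n with
  | zero => simp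
  | succ n ih =>
    rw [pow_succ]
    refine (mul_le_mul' ih le_rfl).trans ?_
    have := FDI_mul (K := K) a n 0
    simpa using this

theorem FDI (h1 : NIL_stmt.{u, v}) (h2 : SUM_stmt.{u, v}) (h3 : PRS_stmt.{u, v}) :
    FDI_stmt.{u, v} := by
  intro K U _ _ _ A hC F hF hFG
  revert hF
  refine Submodule.fg_induction
    (motive := fun F _ => F ≤ A → ∃ J : Submodule K U, IsId A J ∧ F ≤ J ∧ ∃ n : ℕ, J ^ n = ⊥) ?_ ?_ F hFG
  · intro a ha
    have ha' : a ∈ A := ha (Submodule.mem_span_singleton_self a)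
    obtain ⟨m, hm⟩ := h1 K U A hC a ha'
    have hS0 : FDI_S K a 0 ≤ A := by
      unfold FDI_S
      rw [Submodule.span_le]
      rintro _ ⟨i, rfl⟩
      exact FDI_pow_mem hC.mul ha' i
    have hSS : FDI_S K a 0 * FDI_S K a 0 ≤ FDI_S K a 0 :=
      (FDI_mul a 0 0).trans (FDI_mono a 0 (0 + 1))
    have hne : FDI_S K a 0 ≠ A := by
      intro h
      refine hC.notn (m + 1) ?_
      rw [← h, eq_bot_iff]
      refine (FDI_pow a m).trans ?_
      unfold FDI_S
      rw [Submodule.span_le]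
      rintro _ ⟨i, rfl⟩
      have : a ^ (i + m + 1) = 0 := by
        rw [show i + m + 1 = m + (i + 1) by ring, pow_add, hm, zero_mul]
      rw [SetLike.mem_coe, Submodule.mem_bot]
      exact this
    obtain ⟨J, hJ, hSJ, hn⟩ := h3 K U A hC _ hS0 hSS hne
    refine ⟨J, hJ, ?_, hn⟩
    rw [Submodule.span_singleton_le_iff_mem]
    refine hSJ (Submodule.subset_span ⟨0, ?_⟩)
    simp
  · intro N1 N2 _ _ hN1 hN2 hle
    obtain ⟨J1, hJ1, hNJ1, hn1⟩ := hN1 (le_sup_left.trans hle)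
    obtain ⟨J2, hJ2, hNJ2, hn2⟩ := hN2 (le_sup_right.trans hle)
    obtain ⟨hid, hn⟩ := h2 K U A J1 J2 hC.mul hJ1 hJ2 hn1 hn2
    exact ⟨J1 ⊔ J2, hid, sup_le_sup hNJ1 hNJ2, hn⟩

end Pool.Agent.NN

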